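import Pool.Agent.PLT.B

/-!
For odd `k` two of the graphs of `PLT/B.lean` can share one complete graph: this gives a graph with
`k (k - 1) + 2` vertices, independence number `k` and 2-density at most `k / 2`.
-/

open Finset

namespace Pool.Agent.PLT

open Pool.Agent.TwoDens

theorem att_arith {k u f x z c : ℕ} (hk : 2 ≤ k) (hf : f ≤ k - 1) (hz : z + f = f * f)
    (hc : c ≤ f) (h0 : u = 0 → x = 0) (h5 : u = 0 → c = 0) (h6 : u = 1 → 2 * c ≤ k)
    (a1 : 1 ≤ u → x + k ≤ k * u) (a2 : 2 ≤ u → x + 2 * k ≤ k * u + 2) :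
    (1 ≤ u + f → x + z + 2 * c + k ≤ k * (u + f)) ∧
    (2 ≤ u + f → x + z + 2 * c + 2 * k ≤ k * (u + f) + 2) := by
  obtain ⟨g, rfl⟩ : ∃ g, k = f + 1 + g := ⟨k - (f + 1), by omega⟩
  rcases Nat.eq_zero_or_pos u with hu | hu
  · subst hu
    have e1 := h0 rfl
    have e2 := h5 rfl
    subst e1 e2
    simp only [mul_zero, zero_add, add_zero]
    refine ⟨fun h => ?_, fun h => ?_⟩
    · obtain ⟨f', rfl⟩ : ∃ f', f = f' + 1 := ⟨f - 1, by omega⟩
      nlinarith [hz, Nat.zero_le (f' * g)]
    · obtain ⟨f', rfl⟩ : ∃ f', f = f' + 2 := ⟨f - 2, by omega⟩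
      nlinarith [hz, Nat.zero_le (f' * g)]
  · rcases Nat.eq_zero_or_pos f with hf' | hf'
    · subst hf'
      have e1 : c = 0 := by omega
      have e2 : z = 0 := by omega
      subst e1 e2
      simp only [mul_zero, add_zero]
      refine ⟨fun h => ?_, fun h => ?_⟩
      · exact a1 (by omega)
      · exact a2 (by omega)
    · have key : x + z + 2 * c + 2 * (f + 1 + g) ≤ (f + 1 + g) * (u + f) + 2 := by
        rcases Nat.lt_or_ge u 2 with hu2 | hu2
        · have hu1 : u = 1 := by omega
          subst hu1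
          have b1 := a1 le_rfl
          have b2 := h6 rfl
          rcases Nat.eq_zero_or_pos g with hg | hg
          · subst hg
            nlinarith [hz]
          · obtain ⟨f', rfl⟩ : ∃ f', f = f' + 1 := ⟨f - 1, by omega⟩
            obtain ⟨g', rfl⟩ : ∃ g', g = g' + 1 := ⟨g - 1, by omega⟩
            nlinarith [hz, Nat.zero_le (f' * g')]
        · have b1 := a2 hu2
          nlinarith [hz, Nat.zero_le (f * g)]
      refine ⟨fun _ => ?_, fun _ => key⟩
      omega

theorem dbl_arith {p f A1 A2 x1 x2 z c1 c2 e : ℕ} (hp : 2 ≤ p) (hf : f ≤ 2 * p)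
    (hz : z + f = f * f) (he : e ≤ 1)
    (h1 : (x1 + 2 * (2 * p + 1) ≤ A1 + 1 ∧ c1 ≤ f) ∨
      (x1 + (2 * p + 1) ≤ A1 ∧ c1 ≤ f ∧ c1 ≤ p))
    (h2 : (x2 + 2 * (2 * p + 1) ≤ A2 + 1 ∧ c2 ≤ f) ∨
      (x2 + (2 * p + 1) ≤ A2 ∧ c2 ≤ f ∧ c2 ≤ p)) :
    x2 + (x1 + z + 2 * c1) + 2 * (e + c2) + 2 * (2 * p + 1) ≤
      A2 + (A1 + (2 * p + 1) * f) + 2 := by
  obtain ⟨g, hg⟩ : ∃ g, 2 * p = f + g := ⟨2 * p - f, by omega⟩
  have hE : z + f * g + 2 * f = (2 * p + 1) * f := by
    rw [hg]
    nlinarith [hz]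
  have hfg := Nat.zero_le (f * g)
  rcases h1 with ⟨a1, a2⟩ | ⟨a1, a2, a3⟩ <;> rcases h2 with ⟨b1, b2⟩ | ⟨b1, b2, b3⟩
  · omega
  · omega
  · omega
  · have key : 2 * c1 + 2 * c2 ≤ f * g + 2 * f := by
      rcases Nat.lt_or_ge p f with h | h
      · obtain ⟨a, ha⟩ : ∃ a, p = a + g + 1 := ⟨p - g - 1, by omega⟩
        have hf2 : f = 2 * a + g + 2 := by omega
        have : 4 * p ≤ f * g + 2 * f := by
          rw [ha, hf2]
          nlinarith [Nat.zero_le (a * g), Nat.zero_le (g * g)]
        omega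
      · have h3 : 2 ≤ g := by omega
        have h4 : f * 2 ≤ f * g := Nat.mul_le_mul_left f h3
        omega
    omega

section
variable {V W V' : Type} [DecidableEq V] [DecidableEq W] [DecidableEq V']

theorem cr_split (att : V ⊕ W → Option V') (A : Finset V') (Z : Finset (V ⊕ W)) :
    cr att A Z = cr (fun v => att (Sum.inl v)) A Z.toLeft +
      cr (fun b => att (Sum.inr b)) A Z.toRight := by
  obtain ⟨B, hB⟩ : ∃ B, B = Z.toLeft := ⟨_, rfl⟩
  obtain ⟨C, hC⟩ : ∃ C, C = Z.toRight := ⟨_, rfl⟩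
  have hZ : Z = B.disjSum C := by rw [hB, hC, Finset.toLeft_disjSum_toRight]
  rw [← hB, ← hC, hZ]
  unfold cr
  simp only [Finset.card_filter, Finset.sum_disjSum]

theorem cr_zero_left (att : W → Option V) {A : Finset V} (Z : Finset W) (h : A.card = 0) :
    cr att A Z = 0 := by
  rw [Finset.card_eq_zero] at h
  unfold cr
  rw [h, Finset.card_eq_zero, Finset.filter_eq_empty_iff]
  rintro a _ ⟨b, hb, _⟩
  exact absurd hb (Finset.notMem_empty _)

end

/-- the numbers of the vertices of `Fin n` below and above `p` -/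
theorem fin_low {n p : ℕ} (hp : p ≤ n) :
    ((univ : Finset (Fin n)).filter (fun a => a.val < p)).card = p := by
  rcases Nat.eq_zero_or_pos p with h0 | h0
  · subst h0
    rw [Finset.card_eq_zero, Finset.filter_eq_empty_iff]
    intro a _
    omega
  refine le_antisymm ?_ ?_
  · have := Finset.card_le_card_of_injOn (s := (univ : Finset (Fin n)).filter
      (fun a => a.val < p)) (t := Finset.range p) (fun a => a.val)
      (fun a ha => by simpa using ha) (fun a _ b _ hab => Fin.ext hab)
    simpa using this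
  · have := Finset.card_le_card_of_injOn (s := Finset.range p)
      (t := (univ : Finset (Fin n)).filter (fun a => a.val < p))
      (fun a => if h : a < n then ⟨a, h⟩ else ⟨0, by omega⟩) ?_ ?_
    · simpa using this
    · intro a ha
      rw [Finset.mem_coe, Finset.mem_range] at ha
      have h3 : a < n := by omega
      simp [h3, ha]
    · intro a ha b hb hab
      rw [Finset.mem_coe, Finset.mem_range] at ha hb
      have h3 : a < n := by omega
      have h4 : b < n := by omega
      simpa [h3, h4] using hab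

theorem fin_high {n p : ℕ} (hp : p ≤ n) :
    ((univ : Finset (Fin n)).filter (fun a => ¬ a.val < p)).card = n - p := by
  have h := Finset.card_filter_add_card_filter_not
    (s := (univ : Finset (Fin n))) (fun a => a.val < p)
  rw [Finset.card_univ, Fintype.card_fin, fin_low hp] at h
  omega

/-- a set that does not contain both `w` and `y` has at most `p` edges to the complete graph -/
theorem cr_le_half {V : Type} [DecidableEq V] {p n : ℕ} (hn : n = 2 * p) {w y : V} (A : Finset V)
    (C : Finset (Fin n)) (h : ¬ (w ∈ A ∧ y ∈ A)) :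
    cr (fun a : Fin n => if p ≤ a.val then some w else some y) A C ≤ p := by
  by_cases hw : w ∈ A
  · have hy : y ∉ A := fun h1 => h ⟨hw, h1⟩
    have h1 := fin_high (n := n) (p := p) (by omega)
    refine le_trans (Finset.card_le_card ?_) (le_of_eq (h1.trans (by omega)))
    intro a ha
    rw [mem_filter] at ha ⊢
    refine ⟨mem_univ _, fun h6 => ?_⟩
    obtain ⟨_, v, hv, h4⟩ := ha
    simp only [show ¬ p ≤ a.val by omega, if_false] at h4
    rw [← Option.some.inj h4] at hv
    exact hy hv
  · have h1 := fin_low (n := n) (p := p) (by omega)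
    refine le_trans (Finset.card_le_card ?_) (le_of_eq h1)
    intro a ha
    rw [mem_filter] at ha ⊢
    refine ⟨mem_univ _, ?_⟩
    by_contra h6
    obtain ⟨_, v, hv, h4⟩ := ha
    simp only [show p ≤ a.val by omega, if_true] at h4
    rw [← Option.some.inj h4] at hv
    exact hw hv

theorem Ex.dbl {k p : ℕ} (hkp : k = 2 * p + 1) (hp : 2 ≤ p) :
    Ex k (2 * (p * (k - 1) + 1) + (k - 1)) (2 * p + 1) := by
  classical
  obtain ⟨V, i1, i2, G, i3, w, y, c1, c2, c3, c4, c5⟩ :=
    Inv.all (k := k) (p := p) (by omega) (by omega) (by omega) (by omega) (by omega) (p - 1)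
  obtain ⟨y0, hy0⟩ : ∃ y0, y0 = y (p - 1) := ⟨_, rfl⟩
  have hyw : y0 ≠ w := hy0 ▸ c3 (p - 1)
  have hin : ∀ Y : Finset V, w ∈ Y → y0 ∈ Y → e2 G Y + 2 * k ≤ k * Y.card + 1 := by
    intro Y h1 h2
    rw [hy0] at h2
    exact c5 hkp (p - 1) (by omega) Y h1 h2
  have hind : ∀ I : Finset V, G.IsIndepSet (I : Set V) →
      I.card ≤ p + 1 ∧ (I.card = p + 1 → w ∈ I ∧ y0 ∈ I) := by
    intro I hI
    obtain ⟨d1, d2⟩ := c4 I hI
    refine ⟨by omega, fun h => ?_⟩
    obtain ⟨d3, b, d4, d5, d6⟩ := d2 (by omega)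
    have : b = p - 1 := by omega
    rw [this, ← hy0] at d6
    exact ⟨d3, d6⟩
  set att1 : Fin (k - 1) → Option V := fun a => if p ≤ a.val then some w else some y0 with hatt1
  set att2 : V ⊕ Fin (k - 1) → Option V :=
    fun x => Sum.elim (fun v => if v = w then some y0 else none) att1 x with hatt2
  refine ⟨V ⊕ (V ⊕ Fin (k - 1)), inferInstance, inferInstance, jn G (jn G ⊤ att1) att2,
    inferInstance, ?_, ?_, ?_⟩
  · rw [Fintype.card_sum, Fintype.card_sum, c1, Fintype.card_fin, Nat.sub_add_cancel (by omega)]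
    ring
  · intro Y
    have hY1 := e2_jn (G := G) (H := jn G (⊤ : SimpleGraph (Fin (k - 1))) att1) (att := att2) Y
    have hY2 := e2_jn (G := G) (H := (⊤ : SimpleGraph (Fin (k - 1)))) (att := att1) Y.toRight
    have hY3 := cr_split att2 Y.toLeft Y.toRight
    have hY4 : cr (fun b => att2 (Sum.inr b)) Y.toLeft Y.toRight.toRight =
        cr att1 Y.toLeft Y.toRight.toRight := rfl
    rw [hY4] at hY3
    obtain ⟨A, hA⟩ : ∃ A, A = Y.toLeft := ⟨_, rfl⟩
    obtain ⟨B, hB⟩ : ∃ B, B = Y.toRight.toLeft := ⟨_, rfl⟩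
    obtain ⟨C, hC⟩ : ∃ C, C = Y.toRight.toRight := ⟨_, rfl⟩
    rw [← hA, ← hB, ← hC] at hY3
    rw [← hA, hY3, hY2, ← hB, ← hC] at hY1
    rw [hY1, card_lr Y, card_lr Y.toRight, ← hA, ← hB, ← hC]
    have e1 := e2_top (V := Fin (k - 1)) C
    have e3 : C.card ≤ k - 1 := by
      have := Finset.card_le_univ C
      rwa [Fintype.card_fin] at this
    have f1 : cr (fun v => att2 (Sum.inl v)) A B ≤ 1 := by
      refine le_trans (Finset.card_le_card (t := {w}) ?_) (le_of_eq (Finset.card_singleton w))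
      intro a ha
      rw [mem_filter] at ha
      rw [mem_singleton]
      obtain ⟨_, v, hv, h4⟩ := ha
      rw [hatt2] at h4
      simp only [Sum.elim_inl] at h4
      by_contra h5
      rw [if_neg h5] at h4
      exact absurd h4 (by simp)
    have f2 : A.card = 0 → cr (fun v => att2 (Sum.inl v)) A B = 0 :=
      fun h => cr_zero_left _ B h
    have f3 : B.card = 0 → cr (fun v => att2 (Sum.inl v)) A B = 0 := by
      intro h
      have := cr_le (att := fun v => att2 (Sum.inl v)) A B
      omega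
    have g1 := cr_le (att := att1) A C
    have g2 := cr_le (att := att1) B C
    have g3 : A.card = 0 → cr att1 A C = 0 := fun h => cr_zero_left _ C h
    have g4 : B.card = 0 → cr att1 B C = 0 := fun h => cr_zero_left _ C h
    have g5 : ∀ Z : Finset V, ¬ (w ∈ Z ∧ y0 ∈ Z) → cr att1 Z C ≤ p :=
      fun Z hZ => cr_le_half (by omega) Z C hZ
    have g6 : ∀ Z : Finset V, Z.card = 1 → ¬ (w ∈ Z ∧ y0 ∈ Z) := by
      rintro Z hZ ⟨h1, h2⟩
      rw [Finset.card_eq_one] at hZ
      obtain ⟨v, rfl⟩ := hZ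
      rw [mem_singleton] at h1 h2
      exact hyw (h2.trans h1.symm)
    have g7 : A.card = 1 → 2 * cr att1 A C ≤ k := fun h => by
      have := g5 A (g6 A h)
      omega
    have g8 : B.card = 1 → 2 * cr att1 B C ≤ k := fun h => by
      have := g5 B (g6 B h)
      omega
    obtain ⟨a1, a2⟩ := c2 A
    obtain ⟨b1, b2⟩ := c2 B
    have a0 := e2_empty (V := V) G (Y := A)
    have b0 := e2_empty (V := V) G (Y := B)
    have hAd : 1 ≤ A.card → ((e2 G A + 2 * (2 * p + 1) ≤ k * A.card + 1 ∧ cr att1 A C ≤ C.card) ∨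
        (e2 G A + (2 * p + 1) ≤ k * A.card ∧ cr att1 A C ≤ C.card ∧ cr att1 A C ≤ p)) := by
      intro h
      by_cases hwy : w ∈ A ∧ y0 ∈ A
      · left
        exact ⟨hkp ▸ hin A hwy.1 hwy.2, g1⟩
      · right
        exact ⟨hkp ▸ a1 h, g1, g5 A hwy⟩
    have hBd : 1 ≤ B.card → ((e2 G B + 2 * (2 * p + 1) ≤ k * B.card + 1 ∧ cr att1 B C ≤ C.card) ∨
        (e2 G B + (2 * p + 1) ≤ k * B.card ∧ cr att1 B C ≤ C.card ∧ cr att1 B C ≤ p)) := by
      intro h
      by_cases hwy : w ∈ B ∧ y0 ∈ B
      · left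
        exact ⟨hkp ▸ hin B hwy.1 hwy.2, g2⟩
      · right
        exact ⟨hkp ▸ b1 h, g2, g5 B hwy⟩
    have hmain : 1 ≤ A.card → 1 ≤ B.card →
        e2 G A + (e2 G B + e2 (⊤ : SimpleGraph (Fin (k - 1))) C + 2 * cr att1 B C) +
          2 * (cr (fun v => att2 (Sum.inl v)) A B + cr att1 A C) + 2 * k ≤
          k * (A.card + (B.card + C.card)) + 2 := by
      intro h1 h2
      have h3 := dbl_arith hp (by omega) e1 f1 (hBd h2) (hAd h1)
      have h4 : k * (A.card + (B.card + C.card)) = k * A.card + (k * B.card + k * C.card) := by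
        ring
      rw [h4]
      rw [← hkp] at h3
      exact h3
    clear hY1 hY2 hY3 hY4 hin hind c4 c5 c2 hAd hBd g5 g6
    generalize cr (fun v => att2 (Sum.inl v)) A B = ee at *
    generalize cr att1 A C = ca at *
    generalize cr att1 B C = cb at *
    generalize e2 G A = xa at *
    generalize e2 G B = xb at *
    generalize e2 (⊤ : SimpleGraph (Fin (k - 1))) C = z at *
    generalize A.card = ua at *
    generalize B.card = ub at *
    generalize C.card = f at *
    rcases Nat.eq_zero_or_pos ua with h1 | h1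
    · have h2 := a0 h1
      have h3 := f2 h1
      have h4 := g3 h1
      obtain ⟨h5, h6⟩ := att_arith (by omega) e3 e1 g2 b0 g4 g8 b1 b2
      subst h1 h2 h3 h4
      simp only [mul_zero, zero_add, add_zero]
      exact ⟨h5, h6⟩
    · rcases Nat.eq_zero_or_pos ub with h2 | h2
      · have h3 := b0 h2
        have h4 := f3 h2
        have h5 := g4 h2
        obtain ⟨h6, h7⟩ := att_arith (by omega) e3 e1 g1 a0 g3 g7 a1 a2
        subst h2 h3 h4 h5
        simp only [mul_zero, zero_add, add_zero]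
        exact ⟨h6, h7⟩
      · have h3 := hmain h1 h2
        refine ⟨fun _ => ?_, fun _ => h3⟩
        omega
  · intro I hI
    have hA := indep_l hI
    have hR := indep_r hI
    have hB := indep_l hR
    have hC := indep_top (indep_r hR)
    obtain ⟨a1, a2⟩ := hind _ hA
    obtain ⟨b1, b2⟩ := hind _ hB
    rw [card_lr I, card_lr I.toRight]
    have n1 : I.toLeft.card = p + 1 → I.toRight.toLeft.card = p + 1 → False := by
      intro h1 h2
      have h3 := Finset.mem_toLeft.1 (a2 h1).2
      have h4 := Finset.mem_toRight.1 (Finset.mem_toLeft.1 (b2 h2).1)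
      refine hI (Finset.mem_coe.2 h3) (Finset.mem_coe.2 h4) (by simp) ?_
      rw [jn_lr, hatt2]
      simp
    have n2 : I.toLeft.card = p + 1 → I.toRight.toRight.card = 1 → False := by
      intro h1 h2
      obtain ⟨a, ha⟩ := Finset.card_eq_one.1 h2
      have h5 : a ∈ I.toRight.toRight := by
        rw [ha]
        exact mem_singleton_self a
      have h3 := Finset.mem_toLeft.1 (a2 h1).2
      have h4 := Finset.mem_toLeft.1 (a2 h1).1
      have h6 := Finset.mem_toRight.1 (Finset.mem_toRight.1 h5)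
      by_cases hpa : p ≤ a.val
      · refine hI (Finset.mem_coe.2 h4) (Finset.mem_coe.2 h6) (by simp) ?_
        rw [jn_lr, hatt2, hatt1]
        simp [hpa]
      · refine hI (Finset.mem_coe.2 h3) (Finset.mem_coe.2 h6) (by simp) ?_
        rw [jn_lr, hatt2, hatt1]
        simp [hpa]
    have n3 : I.toRight.toLeft.card = p + 1 → I.toRight.toRight.card = 1 → False := by
      intro h1 h2
      obtain ⟨a, ha⟩ := Finset.card_eq_one.1 h2
      have h5 : a ∈ I.toRight.toRight := by
        rw [ha]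
        exact mem_singleton_self a
      have h3 := Finset.mem_toLeft.1 (b2 h1).2
      have h4 := Finset.mem_toLeft.1 (b2 h1).1
      have h6 := Finset.mem_toRight.1 h5
      by_cases hpa : p ≤ a.val
      · refine hR (Finset.mem_coe.2 h4) (Finset.mem_coe.2 h6) (by simp) ?_
        rw [jn_lr, hatt1]
        simp [hpa]
      · refine hR (Finset.mem_coe.2 h3) (Finset.mem_coe.2 h6) (by simp) ?_
        rw [jn_lr, hatt1]
        simp [hpa]
    generalize I.toLeft.card = ua at *
    generalize I.toRight.toLeft.card = ub at *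
    generalize I.toRight.toRight.card = f at *
    by_cases h1 : ua = p + 1
    · have h2 : ub ≠ p + 1 := fun h => n1 h1 h
      have h3 : f ≠ 1 := fun h => n2 h1 h
      omega
    · by_cases h2 : ub = p + 1
      · have h3 : f ≠ 1 := fun h => n3 h2 h
        omega
      · omega

/-- `k s + j` vertices and independence number at most `s`, if `(k + 1) j ≤ 2 s` -/
theorem Ex.main {k s j : ℕ} (hk : 3 ≤ k) (hj : (k + 1) * j ≤ 2 * s) :
    Ex (k + 1) (k * s + j) s := by
  have h1 : ∀ p, k / 2 = p → Ex (k + 1) ((p + 1) * k + 1) (p + 1) := by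
    intro p hp
    have := (Inv.all (k := k + 1) (p := p) (by omega) (by omega) (by omega) (by omega)
      (by omega) p).ex
    rwa [Nat.add_sub_cancel] at this
  have h3 := Ex.base (k := k + 1) (by omega)
  rw [Nat.add_sub_cancel] at h3
  rcases Nat.even_or_odd' k with ⟨p, hp | hp⟩
  · have h2 := Ex.dbl (k := k + 1) (p := p) (by omega) (by omega)
    rw [Nat.add_sub_cancel] at h2
    rcases Nat.even_or_odd' j with ⟨i, hi | hi⟩
    · have h4 : (k + 1) * i ≤ s := by
        rw [hi] at hj
        nlinarith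
      obtain ⟨q, hq⟩ : ∃ q, s = (k + 1) * i + q := ⟨s - (k + 1) * i, by omega⟩
      have h5 := Ex.add (by omega) (Ex.mul (by omega) h2 i) (Ex.mul (by omega) h3 q)
      have e1 : i * (2 * (p * k + 1) + k) + q * k = k * s + j := by
        rw [hq, hi, hp]
        ring
      have e2 : i * (2 * p + 1) + q * 1 = s := by
        rw [hq, hp]
        ring
      rwa [e1, e2] at h5
    · have h4 : (k + 1) * i + (p + 1) ≤ s := by
        rw [hi, hp] at hj
        rw [hp]
        nlinarith
      obtain ⟨q, hq⟩ : ∃ q, s = (k + 1) * i + (p + 1) + q :=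
        ⟨s - ((k + 1) * i + (p + 1)), by omega⟩
      have h5 := Ex.add (by omega) (Ex.add (by omega) (Ex.mul (by omega) h2 i)
        (h1 p (by omega))) (Ex.mul (by omega) h3 q)
      have e1 : i * (2 * (p * k + 1) + k) + ((p + 1) * k + 1) + q * k = k * s + j := by
        rw [hq, hi, hp]
        ring
      have e2 : i * (2 * p + 1) + (p + 1) + q * 1 = s := by
        rw [hq, hp]
        ring
      rwa [e1, e2] at h5
  · have h4 : (p + 1) * j ≤ s := by
      rw [hp] at hj
      nlinarith
    obtain ⟨q, hq⟩ : ∃ q, s = (p + 1) * j + q := ⟨s - (p + 1) * j, by omega⟩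
    have h5 := Ex.add (by omega) (Ex.mul (by omega) (h1 p (by omega)) j)
      (Ex.mul (by omega) h3 q)
    have e1 : j * ((p + 1) * k + 1) + q * k = k * s + j := by
      rw [hq]
      ring
    have e2 : j * (p + 1) + q * 1 = s := by
      rw [hq]
      ring
    rwa [e1, e2] at h5

end Pool.Agent.PLT
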