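import Pool.Agent.TwoDens.Bridge

/-!
Graphs with many vertices, small independence number and 2-density at most `k / 2`: a second graph
is attached to a first one such that each of its vertices has at most one neighbour in the first.
-/

open Finset

namespace Pool.Agent.PLT

open Pool.Agent.TwoDens

/-- the union of two graphs; the vertex `b` of the second one is joined to the vertex `att b` of the
first one (if there is one) -/
def jn {V W : Type} (G : SimpleGraph V) (H : SimpleGraph W) (att : W → Option V) :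
    SimpleGraph (V ⊕ W) where
  Adj x y := Sum.elim
    (fun a => Sum.elim (fun b => G.Adj a b) (fun b => att b = some a) y)
    (fun a => Sum.elim (fun b => att a = some b) (fun b => H.Adj a b) y) x
  symm := ⟨fun x y h => by
    cases x <;> cases y
    · exact SimpleGraph.Adj.symm (G := G) h
    · exact h
    · exact h
    · exact SimpleGraph.Adj.symm (G := H) h⟩
  loopless := ⟨fun x h => by
    cases x
    · exact G.loopless.irrefl _ h
    · exact H.loopless.irrefl _ h⟩

section
variable {V W : Type} {G : SimpleGraph V} {H : SimpleGraph W} {att : W → Option V}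

theorem jn_ll {a b : V} : (jn G H att).Adj (Sum.inl a) (Sum.inl b) ↔ G.Adj a b := Iff.rfl

theorem jn_lr {a : V} {b : W} : (jn G H att).Adj (Sum.inl a) (Sum.inr b) ↔ att b = some a :=
  Iff.rfl

theorem jn_rl {a : W} {b : V} : (jn G H att).Adj (Sum.inr a) (Sum.inl b) ↔ att a = some b :=
  Iff.rfl

theorem jn_rr {a b : W} : (jn G H att).Adj (Sum.inr a) (Sum.inr b) ↔ H.Adj a b := Iff.rfl

end

section
variable {V W : Type} [DecidableEq V] [DecidableEq W] {G : SimpleGraph V} {H : SimpleGraph W}
  {att : W → Option V} [DecidableRel G.Adj] [DecidableRel H.Adj] [DecidableRel (jn G H att).Adj]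

/-- the number of edges between the two parts -/
def cr (att : W → Option V) (Y : Finset V) (Z : Finset W) : ℕ :=
  (Z.filter (fun b => ∃ a ∈ Y, att b = some a)).card

theorem cr_le (Y : Finset V) (Z : Finset W) : cr att Y Z ≤ Z.card :=
  Finset.card_le_card (Finset.filter_subset _ _)

theorem e2_jn (Y : Finset (V ⊕ W)) : e2 (jn G H att) Y =
    e2 G Y.toLeft + e2 H Y.toRight + 2 * cr att Y.toLeft Y.toRight := by
  obtain ⟨A, hA⟩ : ∃ A, A = Y.toLeft := ⟨_, rfl⟩
  obtain ⟨B, hB⟩ : ∃ B, B = Y.toRight := ⟨_, rfl⟩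
  have hY : Y = A.disjSum B := by rw [hA, hB, Finset.toLeft_disjSum_toRight]
  rw [← hA, ← hB, hY]
  unfold e2 cr
  simp only [Finset.card_filter, Finset.sum_disjSum, jn_ll, jn_lr, jn_rl, jn_rr]
  have h1 : ∑ x ∈ B, ∑ y ∈ A, (if att x = some y then 1 else 0) =
      ∑ x ∈ B, if ∃ a ∈ A, att x = some a then 1 else 0 := by
    refine Finset.sum_congr rfl fun x _ => ?_
    rw [← Finset.card_filter]
    split_ifs with h
    · obtain ⟨a, ha, hx⟩ := h
      rw [Finset.card_eq_one]
      refine ⟨a, ?_⟩
      ext b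
      rw [mem_filter, mem_singleton]
      constructor
      · rintro ⟨_, h2⟩
        rw [hx] at h2
        exact (Option.some.inj h2).symm
      · rintro rfl
        exact ⟨ha, hx⟩
    · rw [Finset.card_eq_zero, Finset.filter_eq_empty_iff]
      intro a ha hx
      exact h ⟨a, ha, hx⟩
  have h2 : ∑ x ∈ A, ∑ y ∈ B, (if att y = some x then 1 else 0) =
      ∑ x ∈ B, ∑ y ∈ A, (if att x = some y then 1 else 0) := Finset.sum_comm
  rw [Finset.sum_add_distrib, Finset.sum_add_distrib, h2, h1]
  ring

theorem card_lr (Y : Finset (V ⊕ W)) : Y.card = Y.toLeft.card + Y.toRight.card :=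
  Finset.card_toLeft_add_card_toRight.symm

theorem indep_l {I : Finset (V ⊕ W)} (hI : (jn G H att).IsIndepSet (I : Set (V ⊕ W))) :
    G.IsIndepSet (I.toLeft : Set V) := by
  intro a ha b hb hab
  exact hI (Finset.mem_coe.2 (Finset.mem_toLeft.1 (Finset.mem_coe.1 ha)))
    (Finset.mem_coe.2 (Finset.mem_toLeft.1 (Finset.mem_coe.1 hb)))
    (fun e => hab (Sum.inl.inj e))

theorem indep_r {I : Finset (V ⊕ W)} (hI : (jn G H att).IsIndepSet (I : Set (V ⊕ W))) :
    H.IsIndepSet (I.toRight : Set W) := by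
  intro a ha b hb hab
  exact hI (Finset.mem_coe.2 (Finset.mem_toRight.1 (Finset.mem_coe.1 ha)))
    (Finset.mem_coe.2 (Finset.mem_toRight.1 (Finset.mem_coe.1 hb)))
    (fun e => hab (Sum.inr.inj e))

end

/-- `k |Y| - 2 e(Y)` is at least `k` for `|Y| ≥ 1` and at least `2 k - 2` for `|Y| ≥ 2` -/
def Sl {V : Type} [DecidableEq V] (G : SimpleGraph V) [DecidableRel G.Adj] (k : ℕ) : Prop :=
  ∀ Y : Finset V, (1 ≤ Y.card → e2 G Y + k ≤ k * Y.card) ∧
    (2 ≤ Y.card → e2 G Y + 2 * k ≤ k * Y.card + 2)

theorem e2_empty {V : Type} [DecidableEq V] (G : SimpleGraph V) [DecidableRel G.Adj]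
    {Y : Finset V} (h : Y.card = 0) : e2 G Y = 0 := by
  rw [Finset.card_eq_zero] at h
  rw [h]
  rfl

/-- disjoint unions -/
theorem Sl.add {V W : Type} [DecidableEq V] [DecidableEq W] {G : SimpleGraph V}
    {H : SimpleGraph W} [DecidableRel G.Adj] [DecidableRel H.Adj] {k : ℕ} (hk : 2 ≤ k)
    [DecidableRel (jn G H (fun _ => none)).Adj] (hG : Sl G k) (hH : Sl H k) :
    Sl (jn G H (fun _ => none)) k := by
  intro Y
  have h1 := e2_jn (G := G) (H := H) (att := fun _ => none) Y
  have h2 : cr (fun _ : W => (none : Option V)) Y.toLeft Y.toRight = 0 := by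
    unfold cr
    rw [Finset.card_eq_zero, Finset.filter_eq_empty_iff]
    rintro a _ ⟨b, _, h⟩
    exact absurd h (by simp)
  rw [h2] at h1
  rw [h1, card_lr Y]
  obtain ⟨a1, a2⟩ := hG Y.toLeft
  obtain ⟨b1, b2⟩ := hH Y.toRight
  have a0 := e2_empty (V := V) G (Y := Y.toLeft)
  have b0 := e2_empty (V := W) H (Y := Y.toRight)
  generalize e2 G Y.toLeft = x at *
  generalize e2 H Y.toRight = y at *
  generalize Y.toLeft.card = u at *
  generalize Y.toRight.card = v at *
  rw [mul_add]
  rcases Nat.eq_zero_or_pos u with hu | hu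
  · subst hu
    have := a0 rfl
    subst this
    simp only [mul_zero, zero_add, mul_one]
    refine ⟨fun h => ?_, fun h => ?_⟩
    · have := b1 (by omega); omega
    · have := b2 (by omega); omega
  · rcases Nat.eq_zero_or_pos v with hv | hv
    · subst hv
      have := b0 rfl
      subst this
      simp only [mul_zero, add_zero]
      refine ⟨fun h => ?_, fun h => ?_⟩
      · have := a1 (by omega); omega
      · have := a2 (by omega); omega
    · have h3 := a1 hu
      have h4 := b1 hv
      refine ⟨fun _ => by omega, fun _ => by omega⟩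

/-- there is a graph with `n` vertices, independence number at most `s` and slack -/
def Ex (k n s : ℕ) : Prop :=
  ∃ (V : Type) (_ : Fintype V) (_ : DecidableEq V) (G : SimpleGraph V) (_ : DecidableRel G.Adj),
    Fintype.card V = n ∧ Sl G k ∧ ∀ I : Finset V, G.IsIndepSet (I : Set V) → I.card ≤ s

theorem Ex.add {k n s n' s' : ℕ} (hk : 2 ≤ k) (h : Ex k n s) (h' : Ex k n' s') :
    Ex k (n + n') (s + s') := by
  classical
  obtain ⟨V, i1, i2, G, i3, h1, h2, h3⟩ := h
  obtain ⟨W, j1, j2, H, j3, g1, g2, g3⟩ := h'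
  refine ⟨V ⊕ W, inferInstance, inferInstance, jn G H (fun _ => none), inferInstance, ?_,
    h2.add hk g2, ?_⟩
  · rw [Fintype.card_sum, h1, g1]
  · intro I hI
    rw [card_lr I]
    exact Nat.add_le_add (h3 _ (indep_l hI)) (g3 _ (indep_r hI))

theorem Ex.zero (k : ℕ) : Ex k 0 0 := by
  classical
  refine ⟨Empty, inferInstance, inferInstance, ⊥, inferInstance, rfl, ?_, ?_⟩
  · intro Y
    have : Y.card = 0 := by
      rw [Finset.card_eq_zero, Finset.eq_empty_iff_forall_notMem]
      exact fun x => x.elim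
    omega
  · intro I _
    have : I.card = 0 := by
      rw [Finset.card_eq_zero, Finset.eq_empty_iff_forall_notMem]
      exact fun x => x.elim
    omega

theorem Ex.mul {k n s : ℕ} (hk : 2 ≤ k) (h : Ex k n s) (t : ℕ) : Ex k (t * n) (t * s) := by
  induction t with
  | zero => simpa using Ex.zero k
  | succ t ih =>
    rw [Nat.succ_mul, Nat.succ_mul]
    exact ih.add hk h

theorem Ex.mono {k n s s' : ℕ} (h : Ex k n s) (hs : s ≤ s') : Ex k n s' := by
  obtain ⟨V, i1, i2, G, i3, h1, h2, h3⟩ := h
  exact ⟨V, i1, i2, G, i3, h1, h2, fun I hI => (h3 I hI).trans hs⟩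

/-- the upper bound for `M(n, s + 1)` -/
theorem Ex.le {k n s : ℕ} (h : Ex k n s) : minTwoDensity n (s + 1) ≤ (k : ℝ) / 2 := by
  obtain ⟨V, i1, i2, G, i3, h1, h2, h3⟩ := h
  refine minTwoDensity_le (by positivity) G (by omega) (fun I hI => Nat.lt_succ_of_le (h3 I hI)) ?_
  intro Y hY
  have h4 := (h2 Y).2 (by omega)
  have h5 : (e2 G Y : ℝ) + 2 * k ≤ k * Y.card + 2 := by exact_mod_cast h4
  linarith

end Pool.Agent.PLT
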