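import Pool.Agent.PLT.A

/-!
Graphs with many vertices, small independence number and 2-density at most `k / 2`: attaching
complete graphs on `k - 1` vertices, and the graph with `(p + 1) (k - 1) + 1` vertices and
independence number `p + 1`.
-/

open Finset

namespace Pool.Agent.PLT

open Pool.Agent.TwoDens

theorem e2_top {V : Type} [DecidableEq V] [DecidableRel (⊤ : SimpleGraph V).Adj] (Y : Finset V) :
    e2 (⊤ : SimpleGraph V) Y + Y.card = Y.card * Y.card := by
  have h : ∀ x ∈ Y, (Y.filter ((⊤ : SimpleGraph V).Adj x)).card + 1 = Y.card := by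
    intro x hx
    have h1 : Y.filter ((⊤ : SimpleGraph V).Adj x) = Y.erase x := by
      ext y
      rw [mem_filter, mem_erase, SimpleGraph.top_adj]
      tauto
    rw [h1]
    exact Finset.card_erase_add_one hx
  have h2 : ∑ x ∈ Y, ((Y.filter ((⊤ : SimpleGraph V).Adj x)).card + 1) = ∑ x ∈ Y, Y.card :=
    Finset.sum_congr rfl h
  rw [Finset.sum_add_distrib, Finset.sum_const, Finset.sum_const, smul_eq_mul, smul_eq_mul,
    mul_one] at h2
  exact h2

/-- attaching a complete graph on `k - 1` vertices -/
theorem Sl.att {V W : Type} [DecidableEq V] [Fintype W] [DecidableEq W] {G : SimpleGraph V}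
    [DecidableRel G.Adj] [DecidableRel (⊤ : SimpleGraph W).Adj] {k : ℕ} (hk : 2 ≤ k)
    (hW : Fintype.card W = k - 1) {att : W → Option V}
    [DecidableRel (jn G (⊤ : SimpleGraph W) att).Adj] (hG : Sl G k)
    (hc : ∀ v, 2 * ((univ : Finset W).filter (fun a => att a = some v)).card ≤ k) :
    Sl (jn G (⊤ : SimpleGraph W) att) k := by
  intro Y
  have h1 := e2_jn (G := G) (H := (⊤ : SimpleGraph W)) (att := att) Y
  have h2 := e2_top (V := W) Y.toRight
  have h3 := cr_le (att := att) Y.toLeft Y.toRight
  have h4 : Y.toRight.card ≤ k - 1 := by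
    rw [← hW]
    exact Finset.card_le_univ _
  have h5 : Y.toLeft.card = 0 → cr att Y.toLeft Y.toRight = 0 := by
    intro h
    rw [Finset.card_eq_zero] at h
    unfold cr
    rw [h, Finset.card_eq_zero, Finset.filter_eq_empty_iff]
    rintro a _ ⟨b, hb, _⟩
    exact absurd hb (Finset.notMem_empty _)
  have h6 : Y.toLeft.card = 1 → 2 * cr att Y.toLeft Y.toRight ≤ k := by
    intro h
    rw [Finset.card_eq_one] at h
    obtain ⟨v, hv⟩ := h
    refine le_trans (Nat.mul_le_mul_left 2 (Finset.card_le_card ?_)) (hc v)
    intro a ha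
    rw [mem_filter] at ha ⊢
    obtain ⟨_, b, hb, hab⟩ := ha
    rw [hv, mem_singleton] at hb
    rw [hb] at hab
    exact ⟨mem_univ _, hab⟩
  rw [h1, card_lr Y]
  obtain ⟨a1, a2⟩ := hG Y.toLeft
  have a0 := e2_empty (V := V) G (Y := Y.toLeft)
  generalize cr att Y.toLeft Y.toRight = c at *
  generalize e2 G Y.toLeft = x at *
  generalize e2 (⊤ : SimpleGraph W) Y.toRight = y at *
  generalize Y.toLeft.card = u at *
  generalize Y.toRight.card = f at *
  clear h1 hc hG
  obtain ⟨g, rfl⟩ : ∃ g, k = f + 1 + g := ⟨k - (f + 1), by omega⟩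
  rcases Nat.eq_zero_or_pos u with hu | hu
  · subst hu
    have e1 := a0 rfl
    have e2 := h5 rfl
    subst e1 e2
    simp only [mul_zero, zero_add, add_zero]
    refine ⟨fun h => ?_, fun h => ?_⟩
    · obtain ⟨f', rfl⟩ : ∃ f', f = f' + 1 := ⟨f - 1, by omega⟩
      nlinarith [h2, Nat.zero_le (f' * g)]
    · obtain ⟨f', rfl⟩ : ∃ f', f = f' + 2 := ⟨f - 2, by omega⟩
      nlinarith [h2, Nat.zero_le (f' * g)]
  · rcases Nat.eq_zero_or_pos f with hf | hf
    · subst hf
      have e1 : c = 0 := by omega
      have e2 : y = 0 := by omega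
      subst e1 e2
      simp only [mul_zero, add_zero]
      refine ⟨fun h => ?_, fun h => ?_⟩
      · exact a1 (by omega)
      · exact a2 (by omega)
    · have key : x + y + 2 * c + 2 * (f + 1 + g) ≤ (f + 1 + g) * (u + f) + 2 := by
        rcases Nat.lt_or_ge u 2 with hu2 | hu2
        · have hu1 : u = 1 := by omega
          subst hu1
          have b1 := a1 le_rfl
          have b2 := h6 rfl
          rcases Nat.eq_zero_or_pos g with hg | hg
          · subst hg
            nlinarith [h2]
          · obtain ⟨f', rfl⟩ : ∃ f', f = f' + 1 := ⟨f - 1, by omega⟩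
            obtain ⟨g', rfl⟩ : ∃ g', g = g' + 1 := ⟨g - 1, by omega⟩
            nlinarith [h2, Nat.zero_le (f' * g')]
        · have b1 := a2 hu2
          nlinarith [h2, Nat.zero_le (f * g)]
      refine ⟨fun _ => ?_, fun _ => key⟩
      omega

/-- independent sets of a complete graph -/
theorem indep_top {W : Type} {I : Finset W} (hI : (⊤ : SimpleGraph W).IsIndepSet (I : Set W)) :
    I.card ≤ 1 := by
  rw [Finset.card_le_one]
  intro a ha b hb
  by_contra hab
  exact hI (Finset.mem_coe.2 ha) (Finset.mem_coe.2 hb) hab ((SimpleGraph.top_adj _ _).2 hab)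

/-- the complete graph on `k - 1` vertices -/
theorem Ex.base {k : ℕ} (hk : 2 ≤ k) : Ex k (k - 1) 1 := by
  classical
  refine ⟨Fin (k - 1), inferInstance, inferInstance, ⊤, inferInstance, Fintype.card_fin _, ?_,
    fun I hI => indep_top hI⟩
  intro Y
  have h2 := e2_top (V := Fin (k - 1)) Y
  have h4 : Y.card ≤ k - 1 := by
    have := Finset.card_le_univ Y
    rwa [Fintype.card_fin] at this
  generalize e2 (⊤ : SimpleGraph (Fin (k - 1))) Y = y at *
  generalize Y.card = f at *
  obtain ⟨g, rfl⟩ : ∃ g, k = f + 1 + g := ⟨k - (f + 1), by omega⟩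
  refine ⟨fun h => ?_, fun h => ?_⟩
  · obtain ⟨f', rfl⟩ : ∃ f', f = f' + 1 := ⟨f - 1, by omega⟩
    nlinarith [h2, Nat.zero_le (f' * g)]
  · obtain ⟨f', rfl⟩ : ∃ f', f = f' + 2 := ⟨f - 2, by omega⟩
    nlinarith [h2, Nat.zero_le (f' * g)]

/-- the graph after `t` steps: an independent set with `t + 2` vertices contains `w` and some
`y b` with `t ≤ b`; for odd `k` there is one more unit of slack for sets with `w` and `y b` -/
def Inv (k p t : ℕ) : Prop :=
  ∃ (V : Type) (_ : Fintype V) (_ : DecidableEq V) (G : SimpleGraph V) (_ : DecidableRel G.Adj)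
    (w : V) (y : ℕ → V), Fintype.card V = (t + 1) * (k - 1) + 1 ∧ Sl G k ∧
    (∀ b, y b ≠ w) ∧ (∀ I : Finset V, G.IsIndepSet (I : Set V) →
      I.card ≤ t + 2 ∧ (I.card = t + 2 → w ∈ I ∧ ∃ b < p, t ≤ b ∧ y b ∈ I)) ∧
    (k = 2 * p + 1 → ∀ b < p, ∀ Y : Finset V, w ∈ Y → y b ∈ Y →
      e2 G Y + 2 * k ≤ k * Y.card + 1)

theorem Inv.step {k p t : ℕ} (hk : 2 ≤ k) (h1 : k ≤ 2 * p + 2) (h2 : 2 * p ≤ k)
    (hp : p ≤ k - 1) (h : Inv k p t) : Inv k p (t + 1) := by
  classical
  obtain ⟨V, i1, i2, G, i3, w, y, c1, c2, c3, c4, c5⟩ := h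
  set att : Fin (k - 1) → Option V := fun a => if p ≤ a.val then some w else some (y t) with hatt
  refine ⟨V ⊕ Fin (k - 1), inferInstance, inferInstance, jn G ⊤ att, inferInstance, Sum.inl w,
    fun b => Sum.inl (y b), ?_, ?_, ?_, ?_, ?_⟩
  · rw [Fintype.card_sum, c1, Fintype.card_fin]
    ring
  · refine Sl.att hk (Fintype.card_fin _) c2 ?_
    intro v
    have hlow : ((univ : Finset (Fin (k - 1))).filter (fun a => a.val < p)).card ≤ p := by
      have := Finset.card_le_card_of_injOn (s := (univ : Finset (Fin (k - 1))).filter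
        (fun a => a.val < p)) (t := Finset.range p) (fun a => a.val)
        (fun a ha => by simpa using ha) (fun a _ b _ hab => Fin.ext hab)
      simpa using this
    have hall : ((univ : Finset (Fin (k - 1))).filter (fun a => a.val < p)).card +
        ((univ : Finset (Fin (k - 1))).filter (fun a => ¬ a.val < p)).card = k - 1 := by
      have := Finset.card_filter_add_card_filter_not
        (s := (univ : Finset (Fin (k - 1)))) (fun a => a.val < p)
      rwa [Finset.card_univ, Fintype.card_fin] at this
    have hlow2 : p ≤ ((univ : Finset (Fin (k - 1))).filter (fun a => a.val < p)).card := by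
      have := Finset.card_le_card_of_injOn (s := Finset.range p)
        (t := (univ : Finset (Fin (k - 1))).filter (fun a => a.val < p))
        (fun a => if h : a < k - 1 then ⟨a, h⟩ else ⟨0, by omega⟩) ?_ ?_
      · simpa using this
      · intro a ha
        rw [Finset.mem_coe, Finset.mem_range] at ha
        have h3 : a < k - 1 := by omega
        simp [h3, ha]
      · intro a ha b hb hab
        rw [Finset.mem_coe, Finset.mem_range] at ha hb
        have h3 : a < k - 1 := by omega
        have h4 : b < k - 1 := by omega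
        simpa [h3, h4] using hab
    have hle : ((univ : Finset (Fin (k - 1))).filter (fun a => att a = some v)).card ≤ p ∨
        ((univ : Finset (Fin (k - 1))).filter (fun a => att a = some v)).card ≤ k - 1 - p := by
      by_cases hv : v = w
      · right
        have h5 : ((univ : Finset (Fin (k - 1))).filter (fun a => att a = some v)).card ≤
            ((univ : Finset (Fin (k - 1))).filter (fun a => ¬ a.val < p)).card := by
          refine Finset.card_le_card ?_
          intro a ha
          rw [mem_filter] at ha ⊢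
          refine ⟨mem_univ _, fun h6 => ?_⟩
          have h7 := ha.2
          rw [hatt] at h7
          simp only [show ¬ p ≤ a.val by omega, if_false] at h7
          rw [hv] at h7
          exact c3 t (Option.some.inj h7)
        omega
      · left
        refine le_trans (Finset.card_le_card ?_) hlow
        intro a ha
        rw [mem_filter] at ha ⊢
        refine ⟨mem_univ _, ?_⟩
        by_contra h6
        have h7 := ha.2
        rw [hatt] at h7
        simp only [show p ≤ a.val by omega, if_true] at h7
        exact hv (Option.some.inj h7).symm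
    omega
  · intro b hb
    exact c3 b (Sum.inl.inj hb)
  · intro I hI
    obtain ⟨d1, d2⟩ := c4 _ (indep_l hI)
    have d3 := indep_top (indep_r hI)
    have d4 := card_lr I
    refine ⟨by omega, fun h5 => ?_⟩
    obtain ⟨d5, b, d6, d7, d8⟩ := d2 (by omega)
    obtain ⟨a, ha⟩ : ∃ a, a ∈ I.toRight := by
      rw [← Finset.Nonempty, ← Finset.card_pos]
      omega
    have d9 := Finset.mem_toLeft.1 d5
    have d10 := Finset.mem_toLeft.1 d8
    have d11 := Finset.mem_toRight.1 ha
    refine ⟨d9, b, d6, ?_, d10⟩
    rcases Nat.lt_or_ge t b with h6 | h6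
    · exact h6
    have h7 : b = t := by omega
    subst h7
    exfalso
    by_cases hpa : p ≤ a.val
    · refine hI (Finset.mem_coe.2 d9) (Finset.mem_coe.2 d11) (by simp) ?_
      rw [jn_lr, hatt]
      simp only [hpa, if_true]
    · refine hI (Finset.mem_coe.2 d10) (Finset.mem_coe.2 d11) (by simp) ?_
      rw [jn_lr, hatt]
      simp only [hpa, if_false]
  · intro hkp b hb Y hw hy
    have e1 := c5 hkp b hb Y.toLeft (Finset.mem_toLeft.2 hw) (Finset.mem_toLeft.2 hy)
    have e2' := e2_jn (G := G) (H := (⊤ : SimpleGraph (Fin (k - 1)))) (att := att) Y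
    have e3 := e2_top (V := Fin (k - 1)) Y.toRight
    have e4 := cr_le (att := att) Y.toLeft Y.toRight
    have e5 : Y.toRight.card ≤ k - 1 := by
      have := Finset.card_le_univ Y.toRight
      rwa [Fintype.card_fin] at this
    rw [e2', card_lr Y]
    generalize cr att Y.toLeft Y.toRight = c at *
    generalize e2 G Y.toLeft = x at *
    generalize e2 (⊤ : SimpleGraph (Fin (k - 1))) Y.toRight = z at *
    generalize Y.toLeft.card = u at *
    generalize Y.toRight.card = f at *
    obtain ⟨g, hg⟩ : ∃ g, k = f + 1 + g := ⟨k - (f + 1), by omega⟩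
    have e6 : z + 2 * c + f * g ≤ k * f := by
      rw [hg]
      nlinarith [e3]
    have e7 : k * (u + f) = k * u + k * f := by ring
    have e8 := Nat.zero_le (f * g)
    omega

theorem Inv.zero {k p : ℕ} (hk : 3 ≤ k) (h1 : k ≤ 2 * p + 2) (h2 : 2 * p ≤ k) (hp1 : 1 ≤ p)
    (hp : p ≤ k - 1) : Inv k p 0 := by
  classical
  set att : Fin (k - 1) → Option Unit := fun a => if p ≤ a.val then some () else none with hatt
  set y : ℕ → Fin (k - 1) := fun b => if h : b < k - 1 then ⟨b, h⟩ else ⟨0, by omega⟩ with hy
  refine ⟨Unit ⊕ Fin (k - 1), inferInstance, inferInstance, jn ⊤ ⊤ att, inferInstance, Sum.inl (),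
    fun b => Sum.inr (y b), ?_, ?_, ?_, ?_, ?_⟩
  · rw [Fintype.card_sum, Fintype.card_fin, Fintype.card_unit]
    ring
  · refine Sl.att (by omega) (Fintype.card_fin _) ?_ ?_
    · intro Y
      have h3 : Y.card ≤ 1 := by
        have := Finset.card_le_univ Y
        rwa [Fintype.card_unit] at this
      have h4 := e2_top (V := Unit) Y
      generalize e2 (⊤ : SimpleGraph Unit) Y = x at *
      refine ⟨fun h5 => ?_, fun h5 => by omega⟩
      have h6 : Y.card = 1 := by omega
      rw [h6] at h4 ⊢
      omega
    · intro v
      have hlow2 : p ≤ ((univ : Finset (Fin (k - 1))).filter (fun a => a.val < p)).card := by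
        have := Finset.card_le_card_of_injOn (s := Finset.range p)
          (t := (univ : Finset (Fin (k - 1))).filter (fun a => a.val < p)) y ?_ ?_
        · simpa using this
        · intro a ha
          rw [Finset.mem_coe, Finset.mem_range] at ha
          have h3 : a < k - 1 := by omega
          simp [hy, h3, ha]
        · intro a ha b hb hab
          rw [Finset.mem_coe, Finset.mem_range] at ha hb
          have h3 : a < k - 1 := by omega
          have h4 : b < k - 1 := by omega
          simpa [hy, h3, h4] using hab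
      have hall : ((univ : Finset (Fin (k - 1))).filter (fun a => a.val < p)).card +
          ((univ : Finset (Fin (k - 1))).filter (fun a => ¬ a.val < p)).card = k - 1 := by
        have := Finset.card_filter_add_card_filter_not
          (s := (univ : Finset (Fin (k - 1)))) (fun a => a.val < p)
        rwa [Finset.card_univ, Fintype.card_fin] at this
      have h5 : ((univ : Finset (Fin (k - 1))).filter (fun a => att a = some v)).card ≤
          ((univ : Finset (Fin (k - 1))).filter (fun a => ¬ a.val < p)).card := by
        refine Finset.card_le_card ?_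
        intro a ha
        rw [mem_filter] at ha ⊢
        refine ⟨mem_univ _, fun h6 => ?_⟩
        have h7 := ha.2
        rw [hatt] at h7
        simp only [show ¬ p ≤ a.val by omega, if_false] at h7
        exact absurd h7 (by simp)
      omega
  · intro b hb
    exact absurd hb (by simp)
  · intro I hI
    have d3 := indep_top (indep_r hI)
    have d4 := card_lr I
    have d5 := indep_top (indep_l hI)
    refine ⟨by omega, fun h5 => ?_⟩
    obtain ⟨a, ha⟩ : ∃ a, a ∈ I.toRight := by
      rw [← Finset.Nonempty, ← Finset.card_pos]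
      omega
    obtain ⟨u, hu⟩ : ∃ u, u ∈ I.toLeft := by
      rw [← Finset.Nonempty, ← Finset.card_pos]
      omega
    have d9 := Finset.mem_toLeft.1 hu
    have d11 := Finset.mem_toRight.1 ha
    refine ⟨d9, a.val, ?_, Nat.zero_le _, ?_⟩
    · by_contra hpa
      refine hI (Finset.mem_coe.2 d9) (Finset.mem_coe.2 d11) (by simp) ?_
      rw [jn_lr, hatt]
      simp only [show p ≤ a.val by omega, if_true]
    · have : y a.val = a := by
        rw [hy]
        simp
      simpa [this] using d11
  · intro hkp b hb Y hw hyb
    have e2' := e2_jn (G := (⊤ : SimpleGraph Unit)) (H := (⊤ : SimpleGraph (Fin (k - 1))))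
      (att := att) Y
    have e3 := e2_top (V := Fin (k - 1)) Y.toRight
    have e5 : Y.toRight.card ≤ k - 1 := by
      have := Finset.card_le_univ Y.toRight
      rwa [Fintype.card_fin] at this
    have e6 := Finset.mem_toLeft.2 hw
    have e7 := Finset.mem_toRight.2 hyb
    have e8 : Y.toLeft.card = 1 := by
      have h3 : Y.toLeft.card ≤ 1 := by
        have := Finset.card_le_univ Y.toLeft
        rwa [Fintype.card_unit] at this
      have h4 := Finset.card_pos.2 ⟨_, e6⟩
      omega
    have e9 := e2_top (V := Unit) Y.toLeft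
    have hyv : (y b).val = b := by
      rw [hy]
      simp only [show b < k - 1 by omega, dif_pos]
    have e10 : cr att Y.toLeft Y.toRight + 1 ≤ Y.toRight.card := by
      rw [← Finset.card_erase_add_one e7]
      refine Nat.succ_le_succ (Finset.card_le_card ?_)
      intro a ha
      rw [mem_filter] at ha
      rw [mem_erase]
      refine ⟨?_, ha.1⟩
      rintro rfl
      obtain ⟨_, v, _, h4⟩ := ha
      rw [hatt] at h4
      simp only [hyv, show ¬ p ≤ b by omega, if_false] at h4
      exact absurd h4 (by simp)
    have e11 : cr att Y.toLeft Y.toRight ≤ p := by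
      have h3 : cr att Y.toLeft Y.toRight ≤
          ((univ : Finset (Fin (k - 1))).filter (fun a => ¬ a.val < p)).card := by
        refine Finset.card_le_card ?_
        intro a ha
        rw [mem_filter] at ha ⊢
        refine ⟨mem_univ _, fun h6 => ?_⟩
        obtain ⟨_, v, _, h4⟩ := ha
        rw [hatt] at h4
        simp only [show ¬ p ≤ a.val by omega, if_false] at h4
        exact absurd h4 (by simp)
      have hlow2 : p ≤ ((univ : Finset (Fin (k - 1))).filter (fun a => a.val < p)).card := by
        have := Finset.card_le_card_of_injOn (s := Finset.range p)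
          (t := (univ : Finset (Fin (k - 1))).filter (fun a => a.val < p)) y ?_ ?_
        · simpa using this
        · intro a ha
          rw [Finset.mem_coe, Finset.mem_range] at ha
          have h3 : a < k - 1 := by omega
          simp [hy, h3, ha]
        · intro a ha b hb hab
          rw [Finset.mem_coe, Finset.mem_range] at ha hb
          have h3 : a < k - 1 := by omega
          have h4 : b < k - 1 := by omega
          simpa [hy, h3, h4] using hab
      have hall : ((univ : Finset (Fin (k - 1))).filter (fun a => a.val < p)).card +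
          ((univ : Finset (Fin (k - 1))).filter (fun a => ¬ a.val < p)).card = k - 1 := by
        have := Finset.card_filter_add_card_filter_not
          (s := (univ : Finset (Fin (k - 1)))) (fun a => a.val < p)
        rwa [Finset.card_univ, Fintype.card_fin] at this
      omega
    rw [e2', card_lr Y, e8]
    rw [e8] at e9
    generalize cr att Y.toLeft Y.toRight = c at *
    generalize e2 (⊤ : SimpleGraph Unit) Y.toLeft = x at *
    generalize e2 (⊤ : SimpleGraph (Fin (k - 1))) Y.toRight = z at *
    generalize Y.toRight.card = f at *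
    have e12 : x = 0 := by omega
    subst e12
    obtain ⟨g, hg⟩ : ∃ g, k = f + 1 + g := ⟨k - (f + 1), by omega⟩
    have e13 : z + 2 * c + k ≤ k * f + 1 := by
      rcases Nat.eq_zero_or_pos g with hg0 | hg0
      · subst hg0
        have : k * f = f * f + f := by
          rw [hg]
          ring
        omega
      · obtain ⟨f', rfl⟩ : ∃ f', f = f' + 1 := ⟨f - 1, by omega⟩
        obtain ⟨g', rfl⟩ : ∃ g', g = g' + 1 := ⟨g - 1, by omega⟩
        rw [hg]
        nlinarith [e3, Nat.zero_le (f' * g')]
    have e14 : k * (1 + f) = k + k * f := by ring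
    omega

theorem Inv.all {k p : ℕ} (hk : 3 ≤ k) (h1 : k ≤ 2 * p + 2) (h2 : 2 * p ≤ k) (hp1 : 1 ≤ p)
    (hp : p ≤ k - 1) (t : ℕ) : Inv k p t := by
  induction t with
  | zero => exact Inv.zero hk h1 h2 hp1 hp
  | succ t ih => exact ih.step (by omega) h1 h2 hp

theorem Inv.ex {k p : ℕ} (h : Inv k p p) : Ex k ((p + 1) * (k - 1) + 1) (p + 1) := by
  obtain ⟨V, i1, i2, G, i3, w, y, c1, c2, c3, c4, _⟩ := h
  refine ⟨V, i1, i2, G, i3, c1, c2, fun I hI => ?_⟩
  obtain ⟨d1, d2⟩ := c4 I hI
  by_contra hcon
  obtain ⟨_, b, h3, h4, _⟩ := d2 (by omega)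
  omega

end Pool.Agent.PLT
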